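import Pool.Agent.Y862.GM.Stm

/-! The truncated product inequality. -/

set_option autoImplicit false

namespace Pool.Agent.Y210.GM

open Finset

/-- elementary symmetric polynomials -/
noncomputable def es (a : ℕ → ℝ) (P : Finset ℕ) (j : ℕ) : ℝ :=
  ∑ S ∈ powersetCard j P, ∏ p ∈ S, a p

theorem es_zero (a : ℕ → ℝ) (P : Finset ℕ) : es a P 0 = 1 := by
  unfold es
  rw [powersetCard_zero, sum_singleton, prod_empty]

theorem es_insert (a : ℕ → ℝ) {P : Finset ℕ} {q : ℕ} (hq : q ∉ P) (j : ℕ) :
    es a (insert q P) (j + 1) = es a P (j + 1) + a q * es a P j := by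
  unfold es
  rw [powersetCard_succ_insert hq, sum_union, mul_sum]
  · congr 1
    rw [sum_image]
    · refine sum_congr rfl fun S hS => ?_
      have h1 : q ∉ S := fun h => hq ((mem_powersetCard.1 hS).1 h)
      rw [prod_insert h1]
    · intro S hS T hT hST
      have h1 : q ∉ S := fun h => hq ((mem_powersetCard.1 hS).1 h)
      have h2 : q ∉ T := fun h => hq ((mem_powersetCard.1 hT).1 h)
      have h3 : (insert q S).erase q = (insert q T).erase q := by
        have hST' : insert q S = insert q T := hST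
        rw [hST']
      rwa [erase_insert h1, erase_insert h2] at h3
  · rw [disjoint_left]
    intro S hS hS'
    obtain ⟨T, -, rfl⟩ := mem_image.1 hS'
    exact hq ((mem_powersetCard.1 hS).1 (mem_insert_self q T))

theorem es_empty (a : ℕ → ℝ) (j : ℕ) : es a ∅ (j + 1) = 0 := by
  unfold es
  rw [powersetCard_eq_empty.2 (by simp), sum_empty]

theorem sum_insert (a : ℕ → ℝ) {P : Finset ℕ} {q : ℕ} (hq : q ∉ P) (s : ℕ) :
    ∑ j ∈ range (s + 1), es a (insert q P) j =
      ∑ j ∈ range (s + 1), es a P j + a q * ∑ j ∈ range s, es a P j := by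
  rw [sum_range_succ', sum_range_succ', es_zero, es_zero, mul_sum, add_right_comm,
    ← sum_add_distrib]
  congr 1
  exact sum_congr rfl fun j _ => es_insert a hq j

theorem core (a : ℕ → ℝ) (P : Finset ℕ) (h : ∀ p ∈ P, |1 + a p| ≤ 1) :
    (|∏ p ∈ P, (1 + a p)| ≤ 1) ∧ ∀ s : ℕ,
      |∏ p ∈ P, (1 + a p) - ∑ j ∈ range (s + 1), es a P j| ≤ es (fun p => |a p|) P (s + 1) := by
  classical
  induction P using Finset.induction_on with
  | empty =>
    refine ⟨by simp, fun s => ?_⟩
    rw [es_empty, prod_empty, sum_range_succ', es_zero,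
      sum_eq_zero (fun j _ => es_empty a j)]
    simp
  | insert q P hq ih =>
    obtain ⟨h1, h2⟩ := ih fun p hp => h p (mem_insert_of_mem hp)
    have hq1 := h q (mem_insert_self q P)
    refine ⟨?_, fun s => ?_⟩
    · rw [prod_insert hq, abs_mul]
      exact mul_le_one₀ hq1 (abs_nonneg _) h1
    · have key : ∀ s : ℕ, |∏ p ∈ P, (1 + a p) - ∑ j ∈ range s, es a P j| ≤
          es (fun p => |a p|) P s := by
        intro s
        rcases s with _ | s
        · rw [range_zero, sum_empty, sub_zero, es_zero]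
          exact h1
        · exact h2 s
      rw [prod_insert hq, sum_insert a hq, es_insert _ hq]
      have e : (1 + a q) * ∏ p ∈ P, (1 + a p) - (∑ j ∈ range (s + 1), es a P j +
          a q * ∑ j ∈ range s, es a P j) =
          (∏ p ∈ P, (1 + a p) - ∑ j ∈ range (s + 1), es a P j) +
            a q * (∏ p ∈ P, (1 + a p) - ∑ j ∈ range s, es a P j) := by ring
      rw [e]
      refine (abs_add_le _ _).trans (add_le_add (h2 s) ?_)
      rw [abs_mul]
      exact mul_le_mul_of_nonneg_left (key s) (abs_nonneg _)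

theorem t_TRUNC : Pool.Agent.Y862.GM.S_TRUNC := fun P a h s => (core a P h).2 s

end Pool.Agent.Y210.GM
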